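import Mathlib
set_option autoImplicit false
open Polynomial

namespace Pool.Agent.Results.MP_46a474_nt.Disproof

/-- Over a finite field of characteristic `p`, a polynomial `Y ^ (p ^ m) + a Y + b` is reducible as
soon as `m + 1 ≤ p ^ (m - 1)`. -/
theorem not_irreducible_affine (p m : ℕ) [hp : Fact p.Prime] (hm : 1 ≤ m) (hpm : m + 1 ≤ p ^ (m - 1))
    (K : Type) [Field K] [Fintype K] [CharP K p] (a b : K) :
    ¬ Irreducible (X ^ (p ^ m) + C a * X + C b : K[X]) := by
  classical
  intro hirr
  set g : K[X] := X ^ (p ^ m) + C a * X + C b with hg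
  have hp2 : 2 ≤ p := hp.out.two_le
  have hpm1 : 1 < p ^ m := Nat.one_lt_pow (by omega) (by omega)
  have hdeg : g.natDegree = p ^ m := by
    rw [hg]
    have h1 : (C a * X + C b : K[X]).degree < ((p ^ m : ℕ) : WithBot ℕ) :=
      lt_of_le_of_lt degree_linear_le (by exact_mod_cast hpm1)
    rw [add_assoc, natDegree_add_eq_left_of_degree_lt (by rw [degree_X_pow]; exact h1),
      natDegree_X_pow]
  have : Fact (Irreducible g) := ⟨hirr⟩
  have hgne : g ≠ 0 := hirr.ne_zero
  let L := AdjoinRoot g
  have : FiniteDimensional K L := (AdjoinRoot.powerBasis hgne).finite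
  have : Finite L := Module.finite_of_finite K
  let _ : Fintype L := Fintype.ofFinite L
  have hfin : Module.finrank K L = p ^ m := by
    rw [(AdjoinRoot.powerBasis hgne).finrank, AdjoinRoot.powerBasis_dim, hdeg]
  have : CharP L p := charP_of_injective_algebraMap (algebraMap K L).injective p
  let _ : Algebra (ZMod p) L := ZMod.algebra L p
  set φ : L →ₐ[K] L := FiniteField.frobeniusAlgHom K L with hφ
  set ψ : Module.End (ZMod p) L := φ.toRingHom.toAddMonoidHom.toZModLinearMap p with hψ
  have hψφ : ∀ x, ψ x = φ x := fun x => rfl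
  have hψpow : ∀ k : ℕ, ∀ x, (ψ ^ k) x = (φ ^ k) x := by
    intro k
    induction k with
    | zero => intro x; rfl
    | succ k ih => intro x; rw [pow_succ', pow_succ', Module.End.mul_apply, AlgHom.mul_apply, ih, hψφ]
  have hord : orderOf φ = p ^ m := by rw [hφ, FiniteField.orderOf_frobeniusAlgHom, hfin]
  have : CharP (Module.End (ZMod p) L) p :=
    charP_of_injective_algebraMap (algebraMap (ZMod p) (Module.End (ZMod p) L)).injective p
  set α : L := AdjoinRoot.root g with hα
  have hαroot : α ^ (p ^ m) + algebraMap K L a * α + algebraMap K L b = 0 := by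
    have h := AdjoinRoot.eval₂_root g
    rw [hg] at h
    simp only [eval₂_add, eval₂_mul, eval₂_pow, eval₂_X, eval₂_C] at h
    exact h
  -- the kernel space
  let V : Submodule (ZMod p) L :=
    { carrier := {y | y ^ (p ^ m) + algebraMap K L a * y = 0}
      add_mem' := by
        intro x y hx hy
        change (x + y) ^ (p ^ m) + algebraMap K L a * (x + y) = 0
        change x ^ (p ^ m) + algebraMap K L a * x = 0 at hx
        change y ^ (p ^ m) + algebraMap K L a * y = 0 at hy
        rw [add_pow_char_pow]
        linear_combination hx + hy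
      zero_mem' := by
        change (0 : L) ^ (p ^ m) + algebraMap K L a * 0 = 0
        rw [zero_pow (by omega)]; ring
      smul_mem' := by
        intro c x hx
        change (c • x) ^ (p ^ m) + algebraMap K L a * (c • x) = 0
        change x ^ (p ^ m) + algebraMap K L a * x = 0 at hx
        obtain ⟨n, rfl⟩ := ZMod.natCast_zmod_surjective c
        rw [Nat.cast_smul_eq_nsmul, nsmul_eq_mul, mul_pow]
        have : ((n : L)) ^ (p ^ m) = n := by
          rw [← Nat.cast_pow, ← map_natCast (algebraMap (ZMod p) L), ← map_natCast (algebraMap (ZMod p) L)]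
          congr 1
          push_cast
          rw [ZMod.pow_card_pow]
        rw [this]
        linear_combination (n : L) * hx }
  have hVmem : ∀ y : L, y ∈ V ↔ y ^ (p ^ m) + algebraMap K L a * y = 0 := fun y => Iff.rfl
  have hVfin : Module.finrank (ZMod p) V ≤ m := by
    let _ : Fintype V := Fintype.ofFinite V
    have h1 : Fintype.card V = p ^ Module.finrank (ZMod p) V := by
      rw [Module.card_eq_pow_finrank (K := ZMod p) (V := V), ZMod.card]
    set P : L[X] := X ^ (p ^ m) + C (algebraMap K L a) * X with hP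
    have hPdeg : P.natDegree = p ^ m := by
      rw [hP]
      have h1 : (C (algebraMap K L a) * X : L[X]).degree < ((p ^ m : ℕ) : WithBot ℕ) :=
        lt_of_le_of_lt (degree_C_mul_X_le _) (by exact_mod_cast hpm1)
      rw [natDegree_add_eq_left_of_degree_lt (by rw [degree_X_pow]; exact h1), natDegree_X_pow]
    have hPne : P ≠ 0 := by
      intro h; rw [h] at hPdeg; simp at hPdeg; omega
    have h2 : Fintype.card V ≤ P.roots.toFinset.card := by
      rw [← Fintype.card_coe]
      apply Fintype.card_le_of_injective (fun v : V => (⟨v.1, by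
        rw [Multiset.mem_toFinset, mem_roots hPne, IsRoot, hP]
        simpa using (hVmem v.1).1 v.2⟩ : P.roots.toFinset))
      intro v w hvw
      simpa using hvw
    have h3 : P.roots.toFinset.card ≤ p ^ m :=
      (Multiset.toFinset_card_le _).trans (hPdeg ▸ P.card_roots')
    have h4 : p ^ Module.finrank (ZMod p) V ≤ p ^ m := by omega
    exact (Nat.pow_le_pow_iff_right (by omega)).1 h4
  have hVφ : ∀ y ∈ V, ψ y ∈ V := by
    intro y hy
    rw [hVmem] at *
    rw [hψφ]
    have := congrArg φ hy
    simpa using this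
  set N : Module.End (ZMod p) L := ψ - 1 with hN
  have hNpow : ∀ k, N ^ (p ^ k) = ψ ^ (p ^ k) - 1 := by
    intro k
    rw [hN, sub_pow_char_pow_of_commute (p := p) (h := Commute.one_right ψ), one_pow]
  have hNtop : N ^ (p ^ m) = 0 := by
    rw [hNpow]
    ext x
    have : (φ ^ (p ^ m)) = 1 := by rw [← hord]; exact pow_orderOf_eq_one φ
    rw [LinearMap.sub_apply, hψpow, this]
    simp
  have hVN : ∀ y ∈ V, N y ∈ V := by
    intro y hy
    exact V.sub_mem (hVφ y hy) hy
  have hβ : N α ∈ V := by
    rw [hVmem]
    have h1 := congrArg φ hαroot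
    simp only [map_add, map_mul, map_pow, AlgHom.commutes, map_zero] at h1
    change (φ α - α) ^ (p ^ m) + algebraMap K L a * (φ α - α) = 0
    rw [sub_pow_char_pow]
    linear_combination h1 - hαroot
  -- restrict to `V`
  set NV : Module.End (ZMod p) V := N.restrict hVN with hNV
  have hNVpow : ∀ k : ℕ, ∀ v : V, (((NV ^ k) v : V) : L) = (N ^ k) (v : L) := by
    intro k v
    rw [hNV, Module.End.pow_restrict, LinearMap.coe_restrict_apply]
  have hker : (NV ^ m) ⟨N α, hβ⟩ = 0 := by
    have h1 : (⟨N α, hβ⟩ : V) ∈ LinearMap.ker (NV ^ (p ^ m)) := by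
      rw [LinearMap.mem_ker]
      apply Subtype.ext
      rw [hNVpow, hNtop]; simp
    have h2 := Module.End.ker_pow_le_ker_pow_finrank NV (p ^ m) h1
    rw [LinearMap.mem_ker] at h2
    obtain ⟨d, hd⟩ := Nat.exists_eq_add_of_le hVfin
    rw [hd, add_comm, pow_add, Module.End.mul_apply, h2, map_zero]
  have hNm : (N ^ (m+1)) α = 0 := by
    rw [pow_succ, Module.End.mul_apply]
    have := congrArg (fun v : V => (v : L)) hker
    simp only [hNVpow] at this
    simpa using this
  have hfix : (φ ^ (p ^ (m-1))) α = α := by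
    obtain ⟨d, hd⟩ := Nat.exists_eq_add_of_le hpm
    have h1 : (N ^ (p ^ (m-1))) α = 0 := by
      rw [hd, add_comm, pow_add, Module.End.mul_apply, hNm, map_zero]
    rw [hNpow, LinearMap.sub_apply, hψpow, sub_eq_zero] at h1
    simpa using h1
  have hone : φ ^ (p ^ (m-1)) = 1 := by
    apply AdjoinRoot.algHom_ext
    rw [hfix]; rfl
  have hdvd := orderOf_dvd_of_pow_eq_one hone
  rw [hord] at hdvd
  have := Nat.le_of_dvd (by positivity) hdvd
  have h5 : p ^ (m-1) < p ^ m := Nat.pow_lt_pow_right (by omega) (by omega)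
  omega

lemma irreducible_section (K : Type) [Field K] (n : ℕ) :
    Irreducible (MvPolynomial.X 0 + MvPolynomial.X 1 ^ n : MvPolynomial (Fin 2) K) := by
  rw [← MulEquiv.irreducible_iff (MvPolynomial.finSuccEquiv K 1)]
  have h : MvPolynomial.finSuccEquiv K 1 (MvPolynomial.X 0 + MvPolynomial.X 1 ^ n) =
      X - C (-(MvPolynomial.X 0 ^ n)) := by
    rw [map_add, map_pow, MvPolynomial.finSuccEquiv_X_zero]
    have : (1 : Fin 2) = Fin.succ 0 := rfl
    rw [this, MvPolynomial.finSuccEquiv_X_succ]
    simp
  rw [h]
  exact irreducible_X_sub_C _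

lemma totalDegree_section (K : Type) [Field K] (n : ℕ) (hn : 2 ≤ n) :
    (MvPolynomial.X 0 + MvPolynomial.X 1 ^ n : MvPolynomial (Fin 2) K).totalDegree = n := by
  rw [MvPolynomial.totalDegree_add_eq_right_of_totalDegree_lt]
  · rw [MvPolynomial.totalDegree_X_pow]
  · rw [MvPolynomial.totalDegree_X_pow, MvPolynomial.totalDegree_X]; omega

/-- For every prime `p` and every function `B` there are a finite field `K` of characteristic `p`
and an irreducible `f` in `K[X, Y]`, of total degree `d ≥ 1` with `B d < |K|`, such that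
`f (a Y + b, Y)` is not irreducible for any `a b` in `K`.  The case `B d = d ^ 4` is the negation of
the question. -/
theorem result (p : ℕ) (hp : p.Prime) (B : ℕ → ℕ) :
    ∃ (K : Type) (_ : Field K) (_ : Fintype K) (_ : CharP K p) (f : MvPolynomial (Fin 2) K),
      Irreducible f ∧ 1 ≤ f.totalDegree ∧ B f.totalDegree < Fintype.card K ∧
      ∀ a b : K, ¬ Irreducible (MvPolynomial.aeval ![C a * X + C b, X] f : K[X]) := by
  have : Fact p.Prime := ⟨hp⟩
  have hp2 := hp.two_le
  set n := B (p ^ 3) + 1 with hn
  let _ : Fintype (GaloisField p n) := Fintype.ofFinite _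
  refine ⟨GaloisField p n, inferInstance, inferInstance, inferInstance,
    MvPolynomial.X 0 + MvPolynomial.X 1 ^ (p ^ 3), irreducible_section _ _, ?_, ?_, ?_⟩
  · rw [totalDegree_section _ _ (by nlinarith [Nat.pow_le_pow_left hp2 3])]
    exact Nat.one_le_pow _ _ (by omega)
  · rw [totalDegree_section _ _ (by nlinarith [Nat.pow_le_pow_left hp2 3])]
    rw [← Nat.card_eq_fintype_card, GaloisField.card p n (by omega)]
    have h1 : n < 2 ^ n := Nat.lt_two_pow_self
    have h2 : 2 ^ n ≤ p ^ n := Nat.pow_le_pow_left hp2 n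
    omega
  · intro a b
    have h := not_irreducible_affine p 3 (by omega)
      (by simpa using Nat.pow_le_pow_left hp2 2) (GaloisField p n) a b
    have heq : (MvPolynomial.aeval ![C a * X + C b, X]
        (MvPolynomial.X 0 + MvPolynomial.X 1 ^ (p ^ 3) : MvPolynomial (Fin 2) (GaloisField p n)) :
        (GaloisField p n)[X]) = X ^ (p ^ 3) + C a * X + C b := by
      simp
      ring
    rw [heq]
    exact h

end Pool.Agent.Results.MP_46a474_nt.Disproof
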